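import Pool.Agent.Lib.MP_53850c_co.RC.Final
import Pool.Agent.Lib.MP_53850c_co.RC.Spec
import Pool.Agent.Lib.MP_53850c_co.BW.Gap

/-!
# Covering the `d`-subcubes of the hypercube by `l`-subcubes: rules of bounded complexity

An `l`-subcube of `Q_n` is a word of length `n` over `{0, 1, *}` with `l` stars. A rule of complexity
`(s, k, D, A, δ)` decides about a word by means of
* the value of a formula with at most `k n` leaves over an alphabet of `s` letters,
* a sum of functions of at most `D` letters each, with values in the finite commutative monoid `A`,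
* any function of average sensitivity at most `δ n`.
`cR s k D A δ n d l` is the least proportion of `l`-subcubes in a `(d, l)`-covering set of `Q_n` which
agrees with such a rule except on a proportion at most `δ` of the `l`-subcubes, `cLim d l` is the
limiting density `c_d^(l)` (definitions in `Pool/Agent/Lib/MP_53850c_co/RC/Defs.lean`,
`PD/Defs.lean`, `PD/LowTools.lean`, `LF/Formula.lean` and
`Pool/Agent/Lib/MP_7c0edd_co/helper21/Defs.lean`).
-/

namespace Pool.Agent.Results.MP_7c0edd_co.Dichotomy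

open Pool.Agent.Lib.MP_53850c_co.RC Pool.Agent.Lib.MP_7c0edd_co.H21 Filter Topology

/-- Rules of bounded complexity reach the limiting density for `l ≥ 2`, but not for `l ≤ 1`. -/
theorem result :
    (∀ (A : Type) [AddCommMonoid A] [Finite A] (d s k D : ℕ) (δ : ℕ → ℝ), 1 ≤ d → d + 2 ≤ s →
      1 ≤ k → (∀ n, 0 ≤ δ n) → Tendsto δ atTop (𝓝 0) →
      Tendsto (fun n => cR s k D A (δ n) n d 0) atTop (𝓝 (1 / ((d : ℝ) + 1)))) ∧
    (∀ (A : Type) [AddCommMonoid A] [Finite A] (d s k D : ℕ) (δ : ℕ → ℝ), 2 ≤ d → d + 2 ≤ s →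
      1 ≤ k → (∀ n, 0 ≤ δ n) → Tendsto δ atTop (𝓝 0) →
      Tendsto (fun n => cR s k D A (δ n) n d 1) atTop (𝓝 (1 / (((d + 1) ^ 2 / 4 : ℕ) : ℝ)))) ∧
    (∀ d l : ℕ, 2 ≤ l → l < d → ∀ ε : ℝ, 0 < ε →
      ∃ s₀ : ℕ, ∀ s k D : ℕ, s₀ ≤ s → 1 ≤ k → ∀ (A : Type) [AddCommMonoid A] (δ : ℕ → ℝ),
        (∀ n, 0 ≤ δ n) → ∀ᶠ n in atTop, |cR s k D A (δ n) n d l - cLim d l| < ε) ∧
    (∃ d₀ : ℕ, ∀ d : ℕ, d₀ ≤ d →
      cLim d 0 < 1 / ((d : ℝ) + 1) ∧ cLim d 1 < 1 / (((d + 1) ^ 2 / 4 : ℕ) : ℝ)) :=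
  ⟨fun A _ _ _ _ _ _ δ hd hs hk h0 h1 => cover_zero specApproxV A hd hs hk δ h0 h1,
    fun A _ _ _ _ _ _ δ hd hs hk h0 h1 => cover_one specApproxE A (by omega) hs hk δ h0 h1,
    fun _ _ hl hld _ hε => cover_two hl hld hε, Pool.Agent.Lib.MP_53850c_co.BW.gap⟩

end Pool.Agent.Results.MP_7c0edd_co.Dichotomy
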