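import Pool.Agent.Lib.MP_7c0edd_co.Blow.NumAll

/-!
# Covering the `d`-subcubes of the hypercube by `l`-subcubes: for `l ≥ 2` the proportions
`c^(l)(n, d)` converge to the limiting density with an error `O(1 / n)`

`c n d l` is the proportion `c^(l)(n, d)` of all `l`-subcubes of `Q_n` used by a smallest
`(d, l)`-covering set and `cLim d l = sup_n c n d l` is the limiting density `c_d^(l)`.
-/

namespace Pool.Agent.Results.MP_7c0edd_co.FiniteApproximation

open Pool.Agent.Lib.MP_7c0edd_co.H21 Pool.Agent.Lib.MP_7c0edd_co.Blow Filter Topology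

/-- For `2 ≤ l < d ≤ n` the limiting density `c_d^(l)` is at least `c^(l)(n, d)`, at most
`c^(l)(n, d) + l (l - 1) / (2 n)`, and at most `(1 + 3 d² (d - l) log n / n) c^(l)(n, d)`. -/
theorem result (d l : ℕ) (hl : 2 ≤ l) (hld : l < d) :
    Tendsto (fun n => c n d l) atTop (𝓝 (cLim d l)) ∧
    ∀ n : ℕ, d ≤ n →
      c n d l ≤ cLim d l ∧
      cLim d l ≤ c n d l + (l : ℝ) * ((l : ℝ) - 1) / (2 * n) ∧
      cLim d l ≤ (1 + 3 * (d : ℝ) ^ 2 * ((d : ℝ) - l) * Real.log n / n) * c n d l := by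
  refine ⟨tendsto_c hld.le, fun n hn => ⟨c_le_cLim hld.le n, ?_, ?_⟩⟩
  · refine (cLim_le_add hl (by omega : l ≤ n) hld.le).trans (le_of_eq ?_)
    rw [Nat.cast_choose_two]
    ring
  · refine (cLim_le_rate hl hld hn).trans ?_
    have hld' : (l : ℝ) + 1 ≤ d := by exact_mod_cast hld
    have hch : (0 : ℝ) < d.choose l := by exact_mod_cast Nat.choose_pos hld.le
    have hN : (0 : ℝ) < 2 ^ (d - l) * (d.choose l : ℝ) := by positivity
    have hn1 : (1 : ℝ) ≤ n := by exact_mod_cast (by omega : 1 ≤ n)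
    have hlog : 0 ≤ Real.log n := Real.log_nonneg hn1
    have h1 := c_ge_trivial (n := n) hld.le hn
    have h2 : (0 : ℝ) ≤ 3 * (d : ℝ) ^ 2 * ((d : ℝ) - l) * Real.log n / n := by
      have : (0 : ℝ) ≤ (d : ℝ) - l := by linarith
      positivity
    have h3 : 3 * (d : ℝ) ^ 2 * ((d : ℝ) - l) * Real.log n / (n * (2 ^ (d - l) * d.choose l))
        = (3 * (d : ℝ) ^ 2 * ((d : ℝ) - l) * Real.log n / n)
          * (1 / (2 ^ (d - l) * (d.choose l : ℝ))) := by
      field_simp
    rw [h3, add_mul, one_mul]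
    gcongr

end Pool.Agent.Results.MP_7c0edd_co.FiniteApproximation
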