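import Pool.Agent.Lib.MP_7c0edd_co.helper21.Chain2

/-!
# Covering the `d`-subcubes of the hypercube by `l`-subcubes: a lower bound

`c n d l` is the proportion `c^(l)(n, d)` of all `l`-subcubes of `Q_n` used by a smallest
`(d, l)`-covering set and `cLim d l = sup_n c n d l` is the limiting density `c_d^(l)`.
-/

namespace Pool.Agent.Results.MP_7c0edd_co.LowerBounds

open Pool.Agent.Lib.MP_7c0edd_co.H21 Filter Topology

/-- For `1 ≤ l < d ≤ n` the counting bound is improved by the factor
`(2 d / (d + l)) (n - d + 1) / (n - l + 1)`, so the limiting density `c_d^(l)` is at least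
`2 d / (d + l)` times the counting bound. -/
theorem result (d l : ℕ) (hl : 1 ≤ l) (hld : l < d) :
    (∀ n : ℕ, d ≤ n →
      (2 * d / (d + l) : ℝ) * (((n : ℝ) - d + 1) / ((n : ℝ) - l + 1)) /
        (2 ^ (d - l) * (d.choose l : ℝ)) ≤ c n d l) ∧
    Tendsto (fun n => c n d l) atTop (𝓝 (cLim d l)) ∧
    (2 * d / (d + l) : ℝ) / (2 ^ (d - l) * (d.choose l : ℝ)) ≤ cLim d l :=
  ⟨fun _ hn => c_ge_chain hl hld hn, tendsto_c hld.le, cLim_ge_chain hl hld⟩

end Pool.Agent.Results.MP_7c0edd_co.LowerBounds
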