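import Pool.Agent.Lib.MP_7c0edd_co.Blow.NumAll

/-!
# Covering the `d`-subcubes of the hypercube by `l`-subcubes: the limiting density is the counting
bound up to a factor `C t²`, and up to a factor `C t log (t + 1)` if `l ≥ 2`, where `t = d - l`; the
factor is at least `(1 - l / (d + 1)) log₂ (d + 2) / 4`

`c n d l` is the proportion `c^(l)(n, d)` of all `l`-subcubes of `Q_n` used by a smallest
`(d, l)`-covering set, `cLim d l = sup_n c n d l` is the limiting density `c_d^(l)`, and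
`2^(d-l) (d choose l)` is the number of `l`-subcubes of `Q_d`.
-/

namespace Pool.Agent.Results.MP_7c0edd_co.SharpUpToPoly

open Pool.Agent.Lib.MP_7c0edd_co.H21 Pool.Agent.Lib.MP_7c0edd_co.Blow Filter Topology

/-- There is an absolute constant `C` such that for all `l < d`, with `t = d - l` and
`N = 2^t (d choose l)`: the limiting density exists, it is at least `1 / N` (the counting bound) and
at least `(1 - l / (d + 1)) log₂ (d + 2) / (4 N)`, it is at most `C t² / N`, and if `l ≥ 2` it is at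
most `C t log (t + 1) / N` and at most `6 t log d / N`. -/
theorem result : ∃ C : ℝ, ∀ d l : ℕ, l < d →
    Tendsto (fun n => c n d l) atTop (𝓝 (cLim d l)) ∧
    1 / (2 ^ (d - l) * (d.choose l : ℝ)) ≤ cLim d l ∧
    (1 - (l : ℝ) / (d + 1)) * Real.logb 2 (d + 2) / (4 * (2 ^ (d - l) * (d.choose l : ℝ)))
      ≤ cLim d l ∧
    cLim d l ≤ C * ((d : ℝ) - l) ^ 2 / (2 ^ (d - l) * (d.choose l : ℝ)) ∧
    (2 ≤ l → cLim d l ≤
      C * (((d : ℝ) - l) * Real.log ((d : ℝ) - l + 1)) / (2 ^ (d - l) * (d.choose l : ℝ))) ∧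
    (2 ≤ l → cLim d l ≤ 6 * (((d : ℝ) - l) * Real.log d) / (2 ^ (d - l) * (d.choose l : ℝ))) := by
  obtain ⟨⟨C₁, h₁⟩, -, -⟩ := MP7c0edd.specFinal2
  obtain ⟨C₂, h₂⟩ := cLim_le_t_log_t
  refine ⟨max (4 * max C₁ 0) (max C₂ 0), fun d l hl => ?_⟩
  have hld : (l : ℝ) + 1 ≤ d := by exact_mod_cast hl
  have ht : (1 : ℝ) ≤ (d : ℝ) - l := by linarith
  have hlog : 0 ≤ Real.log ((d : ℝ) - l + 1) := Real.log_nonneg (by linarith)
  have hlog' : Real.log ((d : ℝ) - l + 1) ≤ (d : ℝ) - l := by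
    have := Real.log_le_sub_one_of_pos (show (0 : ℝ) < (d : ℝ) - l + 1 by linarith)
    linarith
  have hN : (0 : ℝ) < 2 ^ (d - l) * (d.choose l : ℝ) := by
    have : (0 : ℝ) < d.choose l := by exact_mod_cast Nat.choose_pos hl.le
    positivity
  refine ⟨tendsto_c hl.le, (c_ge_trivial hl.le le_rfl).trans (c_le_cLim hl.le d), ?_, ?_,
    fun h => ?_, fun h => ?_⟩
  · refine le_trans (le_of_eq ?_) ((c_ge_log hl le_rfl).trans (c_le_cLim hl.le (d + 2)))
    have hc : ((d + 1).choose l : ℝ) * ((d : ℝ) + 1 - l) = (d.choose l : ℝ) * (d + 1) := by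
      have h1 := Nat.choose_mul_succ_eq d l
      have h2 : ((d + 1 - l : ℕ) : ℝ) = (d : ℝ) + 1 - l := by
        rw [Nat.cast_sub (by omega)]
        push_cast
        ring
      rw [← h2]
      exact_mod_cast h1.symm
    have hc0 : (0 : ℝ) < (d + 1).choose l := by
      exact_mod_cast Nat.choose_pos (by omega : l ≤ d + 1)
    have hc1 : (0 : ℝ) < d.choose l := by exact_mod_cast Nat.choose_pos hl.le
    have hp : (2 : ℝ) ^ (d + 2 - l) = 4 * 2 ^ (d - l) := by
      rw [show d + 2 - l = (d - l) + 2 by omega, pow_add]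
      ring
    have hd1 : (0 : ℝ) < (d : ℝ) + 1 := by positivity
    rw [hp, div_eq_div_iff (by positivity) (by positivity)]
    field_simp
    linear_combination (Real.logb 2 (d + 2)) * hc
  · rcases Nat.lt_or_ge l 2 with h | h
    · refine (h₁ d l hl).trans (div_le_div_of_nonneg_right ?_ hN.le)
      have hl1 : (l : ℝ) ≤ 1 := by exact_mod_cast (by omega : l ≤ 1)
      have hd : (0 : ℝ) ≤ d := Nat.cast_nonneg d
      have h3 : (d : ℝ) ^ 2 ≤ 4 * ((d : ℝ) - l) ^ 2 := by nlinarith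
      have h4 : C₁ * (d : ℝ) ^ 2 ≤ max C₁ 0 * (d : ℝ) ^ 2 := by
        gcongr
        exact le_max_left _ _
      have h5 : max C₁ 0 * (d : ℝ) ^ 2 ≤ max C₁ 0 * (4 * ((d : ℝ) - l) ^ 2) := by
        gcongr
      have h6 : 4 * max C₁ 0 * ((d : ℝ) - l) ^ 2
          ≤ max (4 * max C₁ 0) (max C₂ 0) * ((d : ℝ) - l) ^ 2 := by
        gcongr
        exact le_max_left _ _
      linarith
    · refine (h₂ d l h hl).trans (div_le_div_of_nonneg_right ?_ hN.le)
      have h3 : ((d : ℝ) - l) * Real.log ((d : ℝ) - l + 1) ≤ ((d : ℝ) - l) ^ 2 := by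
        rw [sq]
        gcongr
      have h3' : 0 ≤ ((d : ℝ) - l) * Real.log ((d : ℝ) - l + 1) :=
        mul_nonneg (by linarith) hlog
      calc C₂ * (((d : ℝ) - l) * Real.log ((d : ℝ) - l + 1))
          ≤ max C₂ 0 * (((d : ℝ) - l) * Real.log ((d : ℝ) - l + 1)) := by
            gcongr
            exact le_max_left _ _
        _ ≤ max C₂ 0 * ((d : ℝ) - l) ^ 2 :=
            mul_le_mul_of_nonneg_left h3 (le_max_right _ _)
        _ ≤ max (4 * max C₁ 0) (max C₂ 0) * ((d : ℝ) - l) ^ 2 :=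
            mul_le_mul_of_nonneg_right (le_max_right _ _) (sq_nonneg _)
  · refine (h₂ d l h hl).trans (div_le_div_of_nonneg_right ?_ hN.le)
    have h3' : 0 ≤ ((d : ℝ) - l) * Real.log ((d : ℝ) - l + 1) :=
      mul_nonneg (by linarith) hlog
    exact mul_le_mul_of_nonneg_right ((le_max_left _ _).trans (le_max_right _ _)) h3'
  · refine (cLim_le_log h hl).trans (le_of_eq ?_)
    ring

end Pool.Agent.Results.MP_7c0edd_co.SharpUpToPoly
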